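import Pool.Agent.Helper62.HX.Stm
import Pool.Agent.Helper90.BW.Irr

/-!
# H_Irr: the two forms of the irreducibility, even degree
-/

set_option autoImplicit false
set_option linter.unusedSectionVars false

open Polynomial Matrix Finset

namespace Pool.Agent.Helper90.HX

open Pool.Agent.Helper62.BM Pool.Agent.Helper62.BW Pool.Agent.Helper62.HX
open Pool.Agent.Helper90.BW (coeff_dE)

theorem dt_coeff {A : Type} [CommRing A] (F : A[X][X]) (i : ℕ) :
    (dt F).coeff i = derivative (F.coeff i) := by
  unfold dt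
  rw [Polynomial.sum_def, finsetSum_coeff]
  simp only [coeff_monomial, Finset.sum_ite_eq']
  split_ifs with h
  · rfl
  · rw [notMem_support_iff.1 h, map_zero]

theorem bE_map {R R' : Type} [CommRing R] [CommRing R'] (f : R →+* R') (g : ℕ) (G : R[X])
    (l : Fin (2 * g)) : bE g (G.map f) l = (bE g G l).map f := by
  unfold bE
  split_ifs
  · rw [Polynomial.map_pow, Polynomial.map_X]
  · rw [Polynomial.map_mul, Polynomial.map_pow, Polynomial.map_X]

section lin

variable {E : Type} [Field E]

/-- the forms -/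
noncomputable def lc (g : ℕ) (G : E[X]) : (Fin (2 * g) → E) →ₗ[E] E[X] :=
  Fintype.linearCombination E (bE g G)

theorem lc_eq (g : ℕ) (G : E[X]) (u : Fin (2 * g) → E) :
    lc g G u = ∑ l, Polynomial.C (u l) * bE g G l := by
  unfold lc
  rw [Fintype.linearCombination_apply]
  exact Finset.sum_congr rfl fun l _ => smul_eq_C_mul _

theorem lc_range (g : ℕ) (G : E[X]) :
    LinearMap.range (lc g G) = Submodule.span E (Set.range (bE g G)) := by
  unfold lc
  exact Fintype.range_linearCombination E _

theorem lc_inj (g : ℕ) (G : E[X]) (hm : G.Monic) (hd : G.natDegree = g + 1) :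
    Function.Injective (lc g G) := by
  rw [← LinearMap.ker_eq_bot, LinearMap.ker_eq_bot']
  intro u hu
  rw [lc_eq] at hu
  set q : E[X] := ∑ l : Fin (2 * g), if (l : ℕ) < g then 0 else
    Polynomial.C (u l) * X ^ ((l : ℕ) - g) with hq
  set r : E[X] := ∑ l : Fin (2 * g), if (l : ℕ) < g then
    Polynomial.C (u l) * X ^ (l : ℕ) else 0 with hr
  have h1 : ∑ l, Polynomial.C (u l) * bE g G l = r + q * G := by
    rw [hr, hq, Finset.sum_mul, ← Finset.sum_add_distrib]
    refine Finset.sum_congr rfl fun l _ => ?_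
    unfold bE
    split_ifs
    · ring
    · ring
  rw [h1] at hu
  have hrd : r.natDegree ≤ g := by
    refine natDegree_sum_le_of_forall_le _ _ fun l _ => ?_
    split_ifs with h
    · exact (natDegree_C_mul_X_pow_le _ _).trans h.le
    · rw [natDegree_zero]
      exact Nat.zero_le _
  have hq0 : q = 0 := by
    by_contra hne
    have h2 : (q * G).natDegree = q.natDegree + G.natDegree :=
      natDegree_mul hne hm.ne_zero
    have h3 : q * G = -r := by linear_combination hu
    rw [h3, natDegree_neg, hd] at h2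
    omega
  have hr0 : r = 0 := by
    rw [hq0] at hu
    linear_combination hu
  funext l
  rw [Pi.zero_apply]
  rcases lt_or_ge (l : ℕ) g with hl | hl
  · have h2 : r.coeff l = u l := by
      rw [hr, finsetSum_coeff, Finset.sum_eq_single l]
      · rw [if_pos hl, coeff_C_mul_X_pow, if_pos rfl]
      · intro j _ hj
        split_ifs with h
        · rw [coeff_C_mul_X_pow, if_neg]
          intro h3
          exact hj (Fin.ext h3.symm)
        · rw [coeff_zero]
      · intro h
        exact absurd (Finset.mem_univ l) h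
    rw [← h2, hr0, coeff_zero]
  · have h2 : q.coeff ((l : ℕ) - g) = u l := by
      rw [hq, finsetSum_coeff, Finset.sum_eq_single l]
      · rw [if_neg (not_lt.2 hl), coeff_C_mul_X_pow, if_pos rfl]
      · intro j _ hj
        split_ifs with h
        · rw [coeff_zero]
        · rw [coeff_C_mul_X_pow, if_neg]
          intro h3
          refine hj (Fin.ext ?_)
          omega
      · intro h
        exact absurd (Finset.mem_univ l) h
    rw [← h2, hq0, coeff_zero]

theorem dE_sum {n : ℕ} (δ : Der E) (u : Fin n → E) (b : Fin n → E[X]) :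
    dE δ (∑ l, Polynomial.C (u l) * b l) =
      ∑ l, (Polynomial.C (δ (u l)) * b l + Polynomial.C (u l) * dE δ (b l)) := by
  ext i
  rw [coeff_dE, finsetSum_coeff, finsetSum_coeff, map_sum]
  refine Finset.sum_congr rfl fun l _ => ?_
  rw [coeff_add, coeff_C_mul, coeff_C_mul, coeff_C_mul, coeff_dE, Derivation.leibniz,
    smul_eq_mul, smul_eq_mul]
  ring

end lin

/-- **H12.** -/
theorem h_irr : H_Irr := by
  intro k _ _ g hg G H D P S hF hOk hI E _ _ _ δ hδ W hW
  obtain ⟨⟨hGm, hGd, hHd, hFs⟩, hR, -⟩ := hF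
  have hw : D.w.eval D.c ≠ 0 := by
    obtain ⟨-, -, -, -, -, -, o3, -⟩ := hOk
    exact o3
  have hw0 : D.w ≠ 0 := by
    intro h
    rw [h, eval_zero] at hw
    exact hw rfl
  have hW0 : D.W ≠ 0 := mul_ne_zero (X_sub_C_ne_zero _) hw0
  set θ : k[X] →+* E := (algebraMap (KX k) E).comp (ι k) with hθ
  have hθi : Function.Injective θ :=
    (algebraMap (KX k) E).injective.comp (IsFractionRing.injective k[X] (KX k))
  have hθW : θ D.W ≠ 0 := (map_ne_zero_iff θ hθi).2 hW0
  have h2 : (2 : E) ≠ 0 := by
    have : CharZero E := charZero_of_injective_ringHom (algebraMap (KX k) E).injective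
    exact two_ne_zero
  have hHd' : H.degree < (G ^ 2).degree := by
    have h3 : (G ^ 2).Monic := hGm.pow 2
    rw [degree_eq_natDegree h3.ne_zero, hGm.natDegree_pow, hGd]
    refine lt_of_le_of_lt degree_le_natDegree ?_
    have : H.natDegree < 2 * (g + 1) := by omega
    exact_mod_cast this
  have hFm : (G ^ 2 + H).Monic := (hGm.pow 2).add_of_left hHd'
  have hFd : (G ^ 2 + H).natDegree = 2 * g + 2 := by
    rw [natDegree_add_eq_left_of_degree_lt hHd', hGm.natDegree_pow, hGd]
    ring
  set F : k[X][X] := G ^ 2 + H with hFF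
  set FE : E[X] := F.map θ with hFE
  have hFEm : FE.Monic := hFm.map _
  have hFEd : FE.natDegree = 2 * g + 2 := by
    rw [hFE, hFm.natDegree_map, hFd]
  have hsep : FE.Separable := by
    have h1 : (F.map (ι k)).Separable := hFs
    have h3 : FE = (F.map (ι k)).map (algebraMap (KX k) E) := by
      rw [hFE, hθ, Polynomial.map_map]
    rw [h3]
    exact h1.map
  set b : Fin (2 * g) → k[X][X] := bE g G with hb
  have hbE : bE g (G.map θ) = fun l => (b l).map θ := by
    funext l
    exact bE_map θ g G l
  -- the relations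
  have hrel : ∀ l : Fin (2 * g), 2 * ((P l).map θ * FE + (S l).map θ * derivative FE) =
      Polynomial.C (θ D.W) * (b l).map θ * (dt F).map θ := by
    intro l
    have h3 := congrArg (fun q => Polynomial.map θ q) (hR l).2.2.1
    simp only [Polynomial.map_mul, Polynomial.map_add, Polynomial.map_C,
      Polynomial.map_ofNat] at h3
    rw [hFE, derivative_map, hFF, Polynomial.map_add]
    exact h3
  have hrel2 : ∀ l : Fin (2 * g), Polynomial.C (θ D.W) * (dt (b l)).map θ - (P l).map θ -
      2 * derivative ((S l).map θ) = ∑ m, Polynomial.C (θ (D.M m l)) * (b m).map θ := by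
    intro l
    have h3 := congrArg (fun q => Polynomial.map θ q) (hR l).2.2.2
    simp only [Polynomial.map_mul, Polynomial.map_sub, Polynomial.map_C,
      Polynomial.map_ofNat, Polynomial.map_sum] at h3
    rw [derivative_map]
    exact h3
  have hdEb : ∀ q : k[X][X], dE δ (q.map θ) = (dt q).map θ := by
    intro q
    ext i
    rw [coeff_dE, coeff_map, coeff_map, dt_coeff]
    exact hδ _
  have hL : ∀ u : Fin (2 * g) → E, lc g (G.map θ) u =
      ∑ l, Polynomial.C (u l) * (b l).map θ := by
    intro u
    rw [lc_eq, hbE]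
  set W' : Submodule E E[X] := W.map (lc g (G.map θ)) with hW'
  have hW'le : W' ≤ Submodule.span E (Set.range (bE g (G.map θ))) := by
    rw [← lc_range]
    rintro _ ⟨u, -, rfl⟩
    exact ⟨u, rfl⟩
  have hstab : ∀ u ∈ W', ∀ a b : E[X], a.natDegree ≤ 2 * g → b.natDegree ≤ 2 * g + 1 →
      a * FE + b * derivative FE = u * (dt F).map θ →
      dE δ u - Polynomial.C 2⁻¹ * a - derivative b ∈ W' := by
    rintro _ ⟨u, hu, rfl⟩ a1 b1 ha hb1 hab
    set a0 : E[X] := ∑ l, Polynomial.C (u l * (θ D.W)⁻¹) * (2 * (P l).map θ) with ha0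
    set b0 : E[X] := ∑ l, Polynomial.C (u l * (θ D.W)⁻¹) * (2 * (S l).map θ) with hb0
    have dC : ∀ (c : E) (q : E[X]) (N : ℕ), q.natDegree ≤ N →
        (Polynomial.C c * (2 * q)).natDegree ≤ N := by
      intro c q N hq
      have e1 : Polynomial.C c * (2 * q) = Polynomial.C (c * 2) * q := by
        rw [← mul_assoc, C_mul]
        rfl
      rw [e1]
      exact (natDegree_C_mul_le _ _).trans hq
    have db0 : b0.natDegree ≤ 2 * g + 1 := by
      refine natDegree_sum_le_of_forall_le _ _ fun l _ => dC _ _ _ ?_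
      exact natDegree_map_le.trans (hR l).2.1
    have hab0 : a0 * FE + b0 * derivative FE = lc g (G.map θ) u * (dt F).map θ := by
      rw [ha0, hb0, Finset.sum_mul, Finset.sum_mul, ← Finset.sum_add_distrib, hL,
        Finset.sum_mul]
      refine Finset.sum_congr rfl fun l _ => ?_
      have e1 : Polynomial.C (u l * (θ D.W)⁻¹) * (2 * (P l).map θ) * FE +
          Polynomial.C (u l * (θ D.W)⁻¹) * (2 * (S l).map θ) * derivative FE =
          Polynomial.C (u l * (θ D.W)⁻¹) *
            (2 * ((P l).map θ * FE + (S l).map θ * derivative FE)) := by ring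
      rw [e1, hrel, ← mul_assoc, ← mul_assoc, ← C_mul, mul_assoc (u l), inv_mul_cancel₀ hθW,
        mul_one]
    have hbb : b1 - b0 = 0 := by
      by_contra hne
      have h3 : (a1 - a0) * FE + (b1 - b0) * derivative FE = 0 := by
        have : (a1 - a0) * FE + (b1 - b0) * derivative FE =
            (a1 * FE + b1 * derivative FE) - (a0 * FE + b0 * derivative FE) := by ring
        rw [this, hab0]
        exact sub_eq_zero.2 hab
      have h4 : FE ∣ (b1 - b0) * derivative FE := ⟨-(a1 - a0), by linear_combination h3⟩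
      have h5 : FE ∣ b1 - b0 := IsCoprime.dvd_of_dvd_mul_right hsep h4
      have h6 := natDegree_le_of_dvd h5 hne
      have h7 : (b1 - b0).natDegree ≤ 2 * g + 1 := (natDegree_sub_le _ _).trans (max_le hb1 db0)
      omega
    have hb2 : b1 = b0 := sub_eq_zero.1 hbb
    have ha2 : a1 = a0 := by
      have h3 : (a1 - a0) * FE = 0 := by
        have e1 : (a1 - a0) * FE =
            (a1 * FE + b1 * derivative FE) - (a0 * FE + b0 * derivative FE) := by
          rw [hb2]
          ring
        rw [e1, hab0]
        exact sub_eq_zero.2 hab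
      exact sub_eq_zero.1 ((mul_eq_zero.1 h3).resolve_right hFEm.ne_zero)
    refine ⟨_, hW u hu, ?_⟩
    rw [ha2, hb2, hL, hL, dE_sum, ha0, hb0]
    simp only [hdEb]
    have e0 : Polynomial.C (2 : E)⁻¹ * 2 = 1 := by
      have : (2 : E[X]) = Polynomial.C 2 := rfl
      rw [this, ← C_mul, inv_mul_cancel₀ h2, C_1]
    have e1 : Polynomial.C (2 : E)⁻¹ * ∑ l, Polynomial.C (u l * (θ D.W)⁻¹) *
        (2 * (P l).map θ) = ∑ l, Polynomial.C (u l * (θ D.W)⁻¹) * (P l).map θ := by
      rw [Finset.mul_sum]
      refine Finset.sum_congr rfl fun l _ => ?_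
      linear_combination (Polynomial.C (u l * (θ D.W)⁻¹) * (P l).map θ) * e0
    have e2 : derivative (∑ l, Polynomial.C (u l * (θ D.W)⁻¹) * (2 * (S l).map θ)) =
        ∑ l, Polynomial.C (u l * (θ D.W)⁻¹) * (2 * derivative ((S l).map θ)) := by
      rw [derivative_sum]
      refine Finset.sum_congr rfl fun l _ => ?_
      have : (2 : E[X]) = Polynomial.C 2 := rfl
      rw [this, derivative_C_mul, derivative_C_mul]
    have e3 : ∀ l, (fun i => δ (u i)) l = δ (u l) := fun l => rfl
    have e4 : ∀ m, ((D.B.map (algebraMap (KX k) E)) *ᵥ u) m =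
        ∑ l, θ (D.M m l) * (θ D.W)⁻¹ * u l := by
      intro m
      rw [Matrix.mulVec, dotProduct]
      refine Finset.sum_congr rfl fun l _ => ?_
      unfold Dat.B
      rw [Matrix.map_apply, Matrix.of_apply, map_mul, map_inv₀]
      rfl
    have e5 : ∑ m, Polynomial.C (((fun i => δ (u i)) +
        (D.B.map (algebraMap (KX k) E)) *ᵥ u) m) * (b m).map θ =
        ∑ m, Polynomial.C (δ (u m)) * (b m).map θ +
        ∑ l, Polynomial.C (u l * (θ D.W)⁻¹) *
          ∑ m, Polynomial.C (θ (D.M m l)) * (b m).map θ := by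
      simp only [Finset.mul_sum]
      rw [Finset.sum_comm (s := univ) (t := univ)
        (f := fun l m => Polynomial.C (u l * (θ D.W)⁻¹) *
          (Polynomial.C (θ (D.M m l)) * (b m).map θ)), ← Finset.sum_add_distrib]
      refine Finset.sum_congr rfl fun m _ => ?_
      rw [Pi.add_apply, e4, C_add, add_mul, map_sum, Finset.sum_mul]
      congr 1
      refine Finset.sum_congr rfl fun l _ => ?_
      rw [C_mul, C_mul, C_mul]
      ring
    rw [e5, e1, e2, ← Finset.sum_sub_distrib, ← Finset.sum_sub_distrib, ← Finset.sum_add_distrib]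
    refine Finset.sum_congr rfl fun l _ => ?_
    rw [← hrel2 l]
    have e6 : Polynomial.C (u l * (θ D.W)⁻¹) * Polynomial.C (θ D.W) = Polynomial.C (u l) := by
      rw [← C_mul, mul_assoc, inv_mul_cancel₀ hθW, mul_one]
    linear_combination ((dt (b l)).map θ) * e6
  rcases hI E δ hδ W' hW'le hstab with h | h
  · left
    rw [eq_bot_iff]
    intro u hu
    have h1 : lc g (G.map θ) u ∈ W' := ⟨u, hu, rfl⟩
    rw [h, Submodule.mem_bot] at h1
    rw [Submodule.mem_bot]
    exact lc_inj g _ (hGm.map _) (by rw [hGm.natDegree_map, hGd]) (h1.trans (map_zero _).symm)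
  · right
    rw [eq_top_iff]
    intro u _
    have h1 : lc g (G.map θ) u ∈ W' := by
      rw [h, ← lc_range]
      exact ⟨u, rfl⟩
    obtain ⟨v, hv, hvu⟩ := h1
    rw [← lc_inj g _ (hGm.map _) (by rw [hGm.natDegree_map, hGd]) hvu]
    exact hv

end Pool.Agent.Helper90.HX
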